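import Mathlib

set_option autoImplicit false

namespace Pool.Agent.Results.MP_3570a5_nt.Neg

open Finset Pointwise

variable {d p : ℕ} {q : Fin p → ℕ}

/-- the product of multinomial coefficients `C(k)` -/
def C (k : (Σ i : Fin p, Fin (q i)) → ℕ) : ℕ :=
  ∏ l : Fin p, Nat.multinomial univ fun j : Fin (q l) => k ⟨l, j⟩

/-- `k` lies in the kernel of `V` -/
def InK (v : (Σ i : Fin p, Fin (q i)) → Fin d → ℤ) (k : (Σ i : Fin p, Fin (q i)) → ℕ) : Prop :=
  ∑ x, (k x : ℤ) • v x = 0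

open Classical in
noncomputable def phi0 (v : (Σ i : Fin p, Fin (q i)) → Fin d → ℤ) :
    MvPowerSeries (Σ i : Fin p, Fin (q i)) ℚ :=
  fun k => if InK v k then (C k : ℚ) else 0

open Classical in
noncomputable def phi (v : (Σ i : Fin p, Fin (q i)) → Fin d → ℤ) (x : Σ i : Fin p, Fin (q i)) :
    MvPowerSeries (Σ i : Fin p, Fin (q i)) ℚ :=
  fun k => if InK v k then
    (C k : ℚ) * (harmonic (∑ m : Fin (q x.1), k ⟨x.1, m⟩) - harmonic (k x)) else 0

/-- the Minkowski sum of the polytopes `conv (0, v i 1, ..., v i (q i))` -/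
def Delta (v : (Σ i : Fin p, Fin (q i)) → Fin d → ℤ) : Set (Fin d → ℝ) :=
  ∑ i : Fin p, convexHull ℝ (insert 0 (Set.range fun j : Fin (q i) => fun t => (v ⟨i, j⟩ t : ℝ)))

/-- standing assumptions and the Fano condition -/
def Fano (v : (Σ i : Fin p, Fin (q i)) → Fin d → ℤ) : Prop :=
  0 ∈ interior (Delta v) ∧ Submodule.span ℤ (Set.range v) = ⊤ ∧
    ∀ z : Fin d → ℤ, (fun t => (z t : ℝ)) ∈ interior (Delta v) → z = 0

abbrev I := Σ _ : Fin 2, Fin 4

def v0 : I → Fin 3 → ℤ := fun x =>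
  ![![![1, 0, 0], ![0, 1, 0], ![-1, 0, 0], ![0, -1, 0]],
    ![![0, 0, 1], ![1, 1, -1], ![0, 0, -1], ![-1, -1, 1]]] x.1 x.2

noncomputable def ind (S : Finset I) : I →₀ ℕ :=
  Finsupp.equivFunOnFinite.symm fun x => if x ∈ S then 1 else 0

lemma ind_apply (S : Finset I) (x : I) : ind S x = if x ∈ S then 1 else 0 := rfl

lemma coeff_ind (f g : MvPowerSeries I ℚ) (S : Finset I) :
    MvPowerSeries.coeff (ind S) (f * g) =
      ∑ T ∈ S.powerset, MvPowerSeries.coeff (ind T) f * MvPowerSeries.coeff (ind (S \ T)) g := by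
  rw [MvPowerSeries.coeff_mul]
  symm
  refine Finset.sum_nbij' (fun T => (ind T, ind (S \ T))) (fun a => a.1.support) ?_ ?_ ?_ ?_ ?_
  · intro T hT
    rw [Finset.mem_powerset] at hT
    rw [Finset.HasAntidiagonal.mem_antidiagonal]
    ext x
    have := @hT x
    simp only [Finsupp.add_apply, ind_apply, Finset.mem_sdiff]
    by_cases h1 : x ∈ S <;> by_cases h2 : x ∈ T <;> simp_all
  · intro a ha
    rw [Finset.HasAntidiagonal.mem_antidiagonal] at ha
    rw [Finset.mem_powerset]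
    intro x hx
    have h := DFunLike.congr_fun ha x
    rw [Finsupp.mem_support_iff] at hx
    rw [Finsupp.add_apply, ind_apply] at h
    by_contra hc
    rw [if_neg hc] at h
    omega
  · intro T _
    ext x
    simp [ind_apply]
  · intro a ha
    rw [Finset.HasAntidiagonal.mem_antidiagonal] at ha
    have h := fun x => DFunLike.congr_fun ha x
    simp only [Finsupp.add_apply, ind_apply] at h
    ext x <;> have := h x <;>
      simp only [ind_apply, Finset.mem_sdiff, Finsupp.mem_support_iff] <;>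
      by_cases h1 : x ∈ S <;> by_cases h2 : a.1 x = 0 <;>
      simp only [h1, h2, if_true, if_false, ne_eq, not_true, not_false_iff, and_true, and_false,
        true_and, false_and] at this ⊢ <;> omega
  · intro T _
    rfl

def ch (S : Finset I) : I → ℕ := fun x => if x ∈ S then 1 else 0

instance (S : Finset I) : Decidable (InK (q := fun _ => 4) v0 (ch S)) :=
  decidable_of_iff (∀ t, ∑ x ∈ S, v0 x t = 0) (by
    unfold InK
    rw [funext_iff]
    refine forall_congr' fun t => ?_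
    simp [ch, Finset.sum_apply, ite_apply])

def F0 (S : Finset I) : ℚ := if InK (q := fun _ => 4) v0 (ch S) then C (q := fun _ => 4) (ch S) else 0

def F1 (S : Finset I) : ℚ := if InK (q := fun _ => 4) v0 (ch S) then
  (C (q := fun _ => 4) (ch S) : ℚ) * (harmonic (∑ m : Fin 4, ch S ⟨0, m⟩) - harmonic (ch S ⟨0, 0⟩))
  else 0

def Q (S : Finset I) : ℚ :=
  if S = {⟨0, 0⟩, ⟨0, 2⟩} then 1 else if S = {⟨0, 1⟩, ⟨0, 3⟩} then 3
  else if S = {⟨0, 0⟩, ⟨0, 1⟩, ⟨0, 2⟩, ⟨0, 3⟩} then 18
  else if S = {⟨0, 0⟩, ⟨0, 1⟩, ⟨1, 2⟩, ⟨1, 3⟩} then 2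
  else if S = {⟨0, 2⟩, ⟨0, 3⟩, ⟨1, 0⟩, ⟨1, 1⟩} then 6
  else if S = univ then -32 else 0

lemma hQ : ∀ S : Finset I, ∑ T ∈ S.powerset, Q T * F0 (S \ T) = F1 S := by decide +kernel

lemma fano : Fano (q := fun _ => 4) v0 := by
  have hD : Delta (q := fun _ => 4) v0 =
      convexHull ℝ (insert 0 (Set.range fun j : Fin 4 => fun t => (v0 ⟨0, j⟩ t : ℝ))) +
      convexHull ℝ (insert 0 (Set.range fun j : Fin 4 => fun t => (v0 ⟨1, j⟩ t : ℝ))) := by
    unfold Delta
    rw [Fin.sum_univ_two]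
  have seg : ∀ (i : Fin 2) (j j' : Fin 4) (a : ℝ), |a| ≤ 1 → v0 ⟨i, j'⟩ = -v0 ⟨i, j⟩ →
      (a • fun t => (v0 ⟨i, j⟩ t : ℝ)) ∈
      convexHull ℝ (insert 0 (Set.range fun j : Fin 4 => fun t => (v0 ⟨i, j⟩ t : ℝ))) := by
    intro i j j' a ha h
    rw [abs_le] at ha
    have := convex_convexHull ℝ (insert 0 (Set.range fun j : Fin 4 => fun t => (v0 ⟨i, j⟩ t : ℝ)))
      (subset_convexHull ℝ _ (Or.inr ⟨j, rfl⟩)) (subset_convexHull ℝ _ (Or.inr ⟨j', rfl⟩))
      (a := (1 + a) / 2) (b := (1 - a) / 2) (by linarith) (by linarith) (by ring)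
    convert this using 1
    ext t
    simp [h]
    ring
  refine ⟨?_, ?_, ?_⟩
  · rw [hD]
    refine mem_interior.2 ⟨Metric.ball 0 (1 / 2), fun x hx => ?_, Metric.isOpen_ball, by simp⟩
    rw [mem_ball_zero_iff, pi_norm_lt_iff (by norm_num)] at hx
    have a0 := hx 0
    have a1 := hx 1
    have a2 := hx 2
    rw [Real.norm_eq_abs] at a0 a1 a2
    have b0 := seg 0 0 2 (2 * x 0) (by rw [abs_mul]; norm_num; linarith) (by decide)
    have b1 := seg 0 1 3 (2 * x 1) (by rw [abs_mul]; norm_num; linarith) (by decide)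
    have b2 := seg 1 0 2 (x 2) (by linarith) (by decide)
    refine ⟨_, convex_convexHull ℝ _ b0 b1 (a := 1 / 2) (b := 1 / 2) (by norm_num) (by norm_num)
      (by norm_num), _, b2, ?_⟩
    ext t
    fin_cases t <;> simp [v0]
  · rw [eq_top_iff]
    intro z _
    have : z = z 0 • v0 ⟨0, 0⟩ + z 1 • v0 ⟨0, 1⟩ + z 2 • v0 ⟨1, 0⟩ := by
      ext t
      fin_cases t <;> simp [v0]
    rw [this]
    refine add_mem (add_mem ?_ ?_) ?_ <;>
      exact Submodule.smul_mem _ _ (Submodule.subset_span ⟨_, rfl⟩)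
  · intro z hz
    have key : ∀ (a b c m n : ℝ), 0 ≤ m → 0 ≤ n →
        (∀ j : Fin 4, a * v0 ⟨0, j⟩ 0 + b * v0 ⟨0, j⟩ 1 + c * v0 ⟨0, j⟩ 2 ≤ m) →
        (∀ j : Fin 4, a * v0 ⟨1, j⟩ 0 + b * v0 ⟨1, j⟩ 1 + c * v0 ⟨1, j⟩ 2 ≤ n) →
        0 < a * a + b * b + c * c → a * z 0 + b * z 1 + c * z 2 < m + n := by
      intro a b c m n hm hn h0 h1 hp
      have cv : ∀ (i : Fin 2) (m : ℝ), 0 ≤ m →
          (∀ j : Fin 4, a * v0 ⟨i, j⟩ 0 + b * v0 ⟨i, j⟩ 1 + c * v0 ⟨i, j⟩ 2 ≤ m) →
          ∀ x ∈ convexHull ℝ (insert 0 (Set.range fun j : Fin 4 => fun t => (v0 ⟨i, j⟩ t : ℝ))),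
          a * x 0 + b * x 1 + c * x 2 ≤ m := by
        intro i m hm h x hx
        refine convexHull_min (t := {x : Fin 3 → ℝ | a * x 0 + b * x 1 + c * x 2 ≤ m}) ?_ ?_ hx
        · rintro _ (rfl | ⟨j, rfl⟩)
          · simpa using hm
          · exact h j
        · intro x hx y hy s t hs ht hst
          simp only [Set.mem_ofPred_eq, Pi.add_apply, Pi.smul_apply, smul_eq_mul] at hx hy ⊢
          have e : m = s * m + t * m := by rw [← add_mul, hst, one_mul]
          nlinarith [mul_le_mul_of_nonneg_left hx hs, mul_le_mul_of_nonneg_left hy ht]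
      have hc : Continuous fun s : ℝ => (fun t => (z t : ℝ)) + s • ![a, b, c] := by fun_prop
      have h2 : (fun s : ℝ => (fun t => (z t : ℝ)) + s • ![a, b, c]) ⁻¹'
          interior (Delta (q := fun _ => 4) v0) ∈ nhds (0 : ℝ) :=
        hc.continuousAt.preimage_mem_nhds (by simpa using isOpen_interior.mem_nhds hz)
      obtain ⟨ε, hε, hb⟩ := Metric.mem_nhds_iff.1 h2
      have h3 := interior_subset (hb (show ε / 2 ∈ Metric.ball (0 : ℝ) ε by
        rw [Metric.mem_ball, Real.dist_eq, sub_zero, abs_of_pos (by linarith)]; linarith))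
      rw [hD] at h3
      obtain ⟨x, hx, y, hy, e⟩ := h3
      have e0 := congrFun e 0
      have e1 := congrFun e 1
      have e2 := congrFun e 2
      simp at e0 e1 e2
      have c0 := cv 0 m hm h0 x hx
      have c1 := cv 1 n hn h1 y hy
      have : 0 < ε / 2 * (a * a + b * b + c * c) := by positivity
      have e3 : a * z 0 + b * z 1 + c * z 2 + ε / 2 * (a * a + b * b + c * c) =
          (a * x 0 + b * x 1 + c * x 2) + (a * y 0 + b * y 1 + c * y 2) := by
        linear_combination (-a) * e0 - b * e1 - c * e2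
      linarith
    have k1 := key 1 (-1) 0 1 0 (by norm_num) le_rfl
      (fun j => by fin_cases j <;> simp [v0]) (fun j => by fin_cases j <;> simp [v0]) (by norm_num)
    have k2 := key (-1) 1 0 1 0 (by norm_num) le_rfl
      (fun j => by fin_cases j <;> simp [v0]) (fun j => by fin_cases j <;> simp [v0]) (by norm_num)
    have k3 := key 0 0 1 0 1 le_rfl (by norm_num)
      (fun j => by fin_cases j <;> simp [v0]) (fun j => by fin_cases j <;> simp [v0]) (by norm_num)
    have k4 := key 0 0 (-1) 0 1 le_rfl (by norm_num)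
      (fun j => by fin_cases j <;> simp [v0]) (fun j => by fin_cases j <;> simp [v0]) (by norm_num)
    have k5 := key 1 1 1 1 1 (by norm_num) (by norm_num)
      (fun j => by fin_cases j <;> simp [v0]) (fun j => by fin_cases j <;> simp [v0]) (by norm_num)
    have k6 := key (-1) (-1) (-1) 1 1 (by norm_num) (by norm_num)
      (fun j => by fin_cases j <;> simp [v0]) (fun j => by fin_cases j <;> simp [v0]) (by norm_num)
    have l1 : z 0 - z 1 < 1 := by
      have : (z 0 : ℝ) - z 1 < 1 := by linarith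
      exact_mod_cast this
    have l2 : z 1 - z 0 < 1 := by
      have : (z 1 : ℝ) - z 0 < 1 := by linarith
      exact_mod_cast this
    have l3 : z 2 < 1 := by
      have : (z 2 : ℝ) < 1 := by linarith
      exact_mod_cast this
    have l4 : -z 2 < 1 := by
      have : -(z 2 : ℝ) < 1 := by linarith
      exact_mod_cast this
    have l5 : z 0 + z 1 + z 2 < 2 := by
      have : (z 0 : ℝ) + z 1 + z 2 < 2 := by linarith
      exact_mod_cast this
    have l6 : -(z 0 + z 1 + z 2) < 2 := by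
      have : -((z 0 : ℝ) + z 1 + z 2) < 2 := by linarith
      exact_mod_cast this
    ext t
    fin_cases t <;> simp <;> omega

theorem result : ∃ (d p : ℕ) (q : Fin p → ℕ) (v : (Σ i : Fin p, Fin (q i)) → Fin d → ℤ),
    1 ≤ d ∧ 1 ≤ p ∧ (∀ i, 1 ≤ q i) ∧ Fano v ∧
    ∃ (x : Σ i : Fin p, Fin (q i)) (k : (Σ i : Fin p, Fin (q i)) →₀ ℕ), InK v k ∧
      MvPowerSeries.coeff k (phi v x * (phi0 v)⁻¹) < 0 := by
  refine ⟨3, 2, fun _ => 4, v0, by norm_num, by norm_num, fun _ => by norm_num, fano, ⟨0, 0⟩,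
    ind univ, (by decide : InK (q := fun _ => 4) v0 (ch univ)), ?_⟩
  have h0 : ∀ S, MvPowerSeries.coeff (ind S) (phi0 (q := fun _ => 4) v0) = F0 S := by
    intro S
    show phi0 (q := fun _ => 4) v0 (ind S) = _
    unfold phi0 F0
    congr
  have h1 : ∀ S, MvPowerSeries.coeff (ind S) (phi (q := fun _ => 4) v0 ⟨0, 0⟩) = F1 S := by
    intro S
    show phi (q := fun _ => 4) v0 ⟨0, 0⟩ (ind S) = _
    unfold phi F1
    congr
  have hF : F0 ∅ = 1 := by decide +kernel
  have hc : MvPowerSeries.constantCoeff (phi0 (q := fun _ => 4) v0) ≠ 0 := by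
    have : ind ∅ = 0 := by ext x; simp [ind_apply]
    rw [← MvPowerSeries.coeff_zero_eq_constantCoeff_apply, ← this, h0, hF]
    exact one_ne_zero
  set g := phi (q := fun _ => 4) v0 ⟨0, 0⟩ * (phi0 (q := fun _ => 4) v0)⁻¹ with hg
  have hm : g * phi0 (q := fun _ => 4) v0 = phi (q := fun _ => 4) v0 ⟨0, 0⟩ := by
    rw [hg, mul_assoc, MvPowerSeries.inv_mul_cancel _ hc, mul_one]
  have key : ∀ S, MvPowerSeries.coeff (ind S) g = Q S := by
    intro S
    induction S using Finset.strongInduction with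
    | H S ih =>
      have a := coeff_ind g (phi0 (q := fun _ => 4) v0) S
      rw [hm, h1, ← hQ S, ← Finset.add_sum_erase _ _ (Finset.mem_powerset_self S),
        ← Finset.add_sum_erase _ _ (Finset.mem_powerset_self S), h0, Finset.sdiff_self, hF,
        mul_one, mul_one] at a
      have b : ∑ T ∈ S.powerset.erase S, Q T * F0 (S \ T) = ∑ T ∈ S.powerset.erase S,
          MvPowerSeries.coeff (ind T) g *
            MvPowerSeries.coeff (ind (S \ T)) (phi0 (q := fun _ => 4) v0) := by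
        refine Finset.sum_congr rfl fun T hT => ?_
        rw [Finset.mem_erase, Finset.mem_powerset] at hT
        rw [h0, ih T (Finset.ssubset_iff_subset_ne.2 ⟨hT.2, hT.1⟩)]
      rw [b] at a
      linarith
  rw [key]
  decide +kernel

end Pool.Agent.Results.MP_3570a5_nt.Neg
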